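import Pool.Agent.Helper185.Cal4

/-!
# Calibers of the successors of cardinals of cofinality `ω` (MP_c4349a_gt)

Part one: for every uncountable cardinal `β` of cofinality `ω` there is a notion of forcing with
at most `2 ^ β` conditions which adds no new functions defined on `β`, which preserves GCH, and
all conditions of which force the combinatorial statement `HasSubadditive β`.

Part two: if GCH holds, then `HasSubadditive β` implies that there is a compact Hausdorff c.c.c.
space which has caliber `ℵ₁` (and all regular uncountable calibers up to `β`) but does not have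
caliber `β⁺`.
-/

set_option autoImplicit false

namespace Pool.Agent.Results.MP_c4349a_gt.ConsistentYes

open Cardinal Ordinal Pool.Agent.Helper185.Cal

universe u

/-- The generalised continuum hypothesis. -/
def GCH : Prop := ∀ κ : Cardinal.{u}, ℵ₀ ≤ κ → 2 ^ κ = Order.succ κ

/-- There is a compact Hausdorff c.c.c. space which has caliber `ℵ₁`, and even every regular
uncountable caliber up to `β`, but which does not have caliber `β⁺`. -/
def Example (β : Cardinal.{u}) : Prop :=
  ∃ (X : Type u) (_ : TopologicalSpace X), CompactSpace X ∧ T2Space X ∧ CCC X ∧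
    HasCaliber X (ℵ_ 1) ∧
    (∀ κ : Cardinal.{u}, κ.IsRegular → ℵ₀ < κ → κ ≤ β → HasCaliber X κ) ∧
    ¬ HasCaliber X (Order.succ β)

theorem strong_limit (hG : GCH.{u}) {β : Cardinal.{u}} (h0 : ℵ₀ < β) (h1 : β.ord.cof = ℵ₀) :
    ∀ κ < β, 2 ^ κ < β := by
  intro κ hκ
  rcases lt_or_ge κ ℵ₀ with h | h
  · exact (power_lt_aleph0 ofNat_lt_aleph0 h).trans h0
  · rw [hG κ h]
    rcases (Order.succ_le_of_lt hκ).eq_or_lt with h2 | h2
    · exfalso
      have h3 := (isRegular_succ h).cof_ord
      rw [h2, h1] at h3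
      exact absurd h3 h0.ne
    · exact h2

theorem result :
    (∀ β : Cardinal.{u}, ℵ₀ < β → β.ord.cof = ℵ₀ →
      ∃ (P : Type u) (_ : Preorder P), Nonempty P ∧ #P ≤ 2 ^ β ∧
        NoNewFunctions P β.ord.ToType ∧
        (GCH.{u} → ∀ A : Type u, Infinite A → ∀ p : P,
          p ∈ PowLe P A (Order.succ #A).ord.ToType) ∧
        ∀ p : P, p ∈ Subadditive P β) ∧
    (GCH.{u} → ∀ β : Cardinal.{u}, ℵ₀ < β → β.ord.cof = ℵ₀ → HasSubadditive β → Example β) := by
  refine ⟨fun β h0 h1 => forced_subadditive β h0 h1, fun hG β h0 h1 h2 => ?_⟩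
  obtain ⟨X, hX, h3, h4, h5, h6⟩ :=
    exists_space h0 h1 (strong_limit hG h0 h1) (hG β h0.le) h2
  have h7 : HasCaliber X (ℵ_ 1) := by
    refine h5 _ isRegular_aleph_one aleph0_lt_aleph_one ?_
    rw [← succ_aleph0]
    exact Order.succ_le_of_lt h0
  exact ⟨X, hX, h3, h4, ccc_of_caliber h7, h7, h5, h6⟩

end Pool.Agent.Results.MP_c4349a_gt.ConsistentYes
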